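import Mathlib
import Pool.Agent.HS85.FCoef

/-!
# Taylor coefficients: products, and Parseval for polynomials

`co F n = F^(n)(0) / n!`.
-/

set_option autoImplicit false

open Complex Metric Set Filter Topology MeasureTheory
open scoped ComplexConjugate Real

namespace Pool.CSH4

open Pool.Agent.HS85 Pool.Agent.HU26

theorem cda {f : ℂ → ℂ} {s : ℝ} (hs : 0 < s) (hf : DifferentiableOn ℂ f (ball 0 s)) (n : ℕ) :
    ContDiffAt ℂ n f 0 :=
  ((hf.contDiffOn isOpen_ball).contDiffAt (ball_mem_nhds 0 hs)).of_le le_top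

theorem co_zero (f : ℂ → ℂ) : co f 0 = f 0 := by
  unfold co; simp

theorem co_congr {f g : ℂ → ℂ} {s : ℝ} (hs : 0 < s) (h : ∀ z ∈ ball (0 : ℂ) s, f z = g z) (n : ℕ) :
    co f n = co g n := by
  have h1 : f =ᶠ[𝓝 0] g := by
    filter_upwards [ball_mem_nhds (0 : ℂ) hs] with z hz
    exact h z hz
  unfold co
  rw [h1.iteratedDeriv_eq n]

theorem co_mul {f g : ℂ → ℂ} {s : ℝ} (hs : 0 < s) (hf : DifferentiableOn ℂ f (ball 0 s))
    (hg : DifferentiableOn ℂ g (ball 0 s)) (n : ℕ) :
    co (fun z => f z * g z) n = ∑ i ∈ Finset.range (n + 1), co f i * co g (n - i) := by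
  unfold co
  rw [iteratedDeriv_fun_mul (cda hs hf n) (cda hs hg n), Finset.sum_div]
  refine Finset.sum_congr rfl fun i hi => ?_
  have hin : i ≤ n := Nat.lt_succ_iff.1 (Finset.mem_range.1 hi)
  have h1 := Nat.choose_mul_factorial_mul_factorial hin
  have h2 : ((n.choose i : ℕ) : ℂ) * (i.factorial : ℂ) * ((n - i).factorial : ℂ)
      = (n.factorial : ℂ) := by exact_mod_cast h1
  have a1 : ((n.factorial : ℕ) : ℂ) ≠ 0 := by exact_mod_cast n.factorial_ne_zero
  have a2 : ((i.factorial : ℕ) : ℂ) ≠ 0 := by exact_mod_cast i.factorial_ne_zero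
  have a3 : (((n - i).factorial : ℕ) : ℂ) ≠ 0 := by exact_mod_cast (n - i).factorial_ne_zero
  rw [div_mul_div_comm, div_eq_div_iff a1 (mul_ne_zero a2 a3), ← h2]
  ring

theorem co_add {f g : ℂ → ℂ} {s : ℝ} (hs : 0 < s) (hf : DifferentiableOn ℂ f (ball 0 s))
    (hg : DifferentiableOn ℂ g (ball 0 s)) (n : ℕ) :
    co (fun z => f z + g z) n = co f n + co g n := by
  unfold co
  have := iteratedDeriv_fun_add (cda hs hf n) (cda hs hg n)
  rw [this, add_div]

theorem co_sub {f g : ℂ → ℂ} {s : ℝ} (hs : 0 < s) (hf : DifferentiableOn ℂ f (ball 0 s))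
    (hg : DifferentiableOn ℂ g (ball 0 s)) (n : ℕ) :
    co (fun z => f z - g z) n = co f n - co g n := by
  unfold co
  have := iteratedDeriv_fun_sub (cda hs hf n) (cda hs hg n)
  rw [this, sub_div]

theorem co_const_mul (c : ℂ) (f : ℂ → ℂ) (n : ℕ) :
    co (fun z => c * f z) n = c * co f n := by
  unfold co
  rw [iteratedDeriv_const_mul_field, mul_div_assoc]

theorem co_const (c : ℂ) (n : ℕ) : co (fun _ => c) n = if n = 0 then c else 0 := by
  unfold co
  rw [iteratedDeriv_const]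
  split_ifs with h
  · rw [h]; simp
  · simp

theorem co_pow (k n : ℕ) : co (fun z : ℂ => z ^ k) n = if n = k then 1 else 0 := by
  unfold co
  rw [iteratedDeriv_fun_pow_zero]
  split_ifs with h
  · rw [h]
    have : ((k.factorial : ℕ) : ℂ) ≠ 0 := by exact_mod_cast k.factorial_ne_zero
    simp [this]
  · simp

theorem co_id (n : ℕ) : co (fun z : ℂ => z) n = if n = 1 then 1 else 0 := by
  have := co_pow 1 n
  simpa using this

/-- coefficients of `z f(z)` -/
theorem co_id_mul {f : ℂ → ℂ} {s : ℝ} (hs : 0 < s) (hf : DifferentiableOn ℂ f (ball 0 s)) (n : ℕ) :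
    co (fun z => z * f z) (n + 1) = co f n := by
  rw [co_mul (f := fun z => z) hs differentiableOn_id hf]
  rw [Finset.sum_eq_single 1]
  · rw [co_id]; simp
  · intro i _ hi
    rw [co_id]; simp [hi]
  · intro h
    exfalso
    exact h (Finset.mem_range.2 (by omega))

/-- Parseval for a polynomial-like function -/
theorem mean_poly {V : ℂ → ℂ} {s : ℝ} (hV : DifferentiableOn ℂ V (ball 0 s)) {K : ℕ}
    (h : ∀ n, K ≤ n → co V n = 0) {t : ℝ} (ht : t ∈ Ioo 0 s) :
    (mean fun x => ‖V (pt t x)‖ ^ 2) = ∑ m ∈ Finset.range K, ‖co V m‖ ^ 2 * t ^ (2 * m) := by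
  have hu : Continuous (fun x => V (pt t x)) := by
    have h1 : Continuous (fun x : ℝ => pt t x) := by unfold pt; fun_prop
    exact hV.continuousOn.comp_continuous h1
      (fun x => pt_mem_ball x ⟨by linarith [ht.1, ht.2], ht.2⟩)
  have h1 := parseval hu
  have h2 : HasSum (fun n : ℤ => ‖FC (fun x => V (pt t x)) n‖ ^ 2)
      (∑ n ∈ (Finset.range K).map Nat.castEmbedding, ‖FC (fun x => V (pt t x)) n‖ ^ 2) := by
    apply hasSum_sum_of_ne_finset_zero
    intro n hn
    rcases Int.lt_or_le n 0 with hneg | hpos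
    · obtain ⟨k, hk⟩ : ∃ k : ℕ, n = -((k + 1 : ℕ) : ℤ) := ⟨(-n).toNat - 1, by omega⟩
      rw [hk, fc_neg hV ht k]; simp
    · obtain ⟨k, rfl⟩ := Int.eq_ofNat_of_zero_le hpos
      have hk : K ≤ k := by
        by_contra hlt
        push Not at hlt
        apply hn
        simp only [Finset.mem_map, Finset.mem_range]
        exact ⟨k, hlt, rfl⟩
      have h3 := fc_nat hV ht k
      rw [h3, h k hk]; simp
  rw [h1.unique h2, Finset.sum_map]
  apply Finset.sum_congr rfl
  intro m _
  simp only [Nat.castEmbedding_apply]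
  rw [fc_nat hV ht m, norm_mul, norm_pow, Complex.norm_real, Real.norm_of_nonneg ht.1.le]
  ring

end Pool.CSH4
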