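import Mathlib
import Pool.Agent.CSH4.Coef
import Pool.Agent.HS85.AreaN
import Pool.Agent.CSH3.Disc

/-!
# A truncated Clunie inequality

`H(0) = 1`, `H' = 2 g H` on the unit disc and `z g(z)` in the disc `|w - C| ≤ R` on `|z| = r`.
Then the coefficients of `H` satisfy
`∑_{j ≤ 3} j² r^{2j} |h_j|² ≤ ∑_{j ≤ 2} (α + p j)² r^{2j} |h_j|²`, `p = C/R`, `α = 2 (R² - C²)/R`.
-/

set_option autoImplicit false

open Complex Metric Set Filter Topology MeasureTheory
open scoped ComplexConjugate Real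

namespace Pool.CSH4

open Pool.Agent.HS85 Pool.Agent.HU26 Pool.CSH3

/-- maximum principle on `|z| ≤ r` -/
theorem max_disc {r : ℝ} (hr : 0 < r) {f : ℂ → ℂ} (df : DifferentiableOn ℂ f (closedBall 0 r))
    {M : ℝ} (h : ∀ z : ℂ, ‖z‖ = r → ‖f z‖ ≤ M) {z : ℂ} (hz : ‖z‖ ≤ r) : ‖f z‖ ≤ M := by
  have hcl : closure (ball (0 : ℂ) r) = closedBall 0 r := closure_ball 0 hr.ne'
  have hfr : frontier (ball (0 : ℂ) r) = sphere 0 r := frontier_ball 0 hr.ne'
  refine Complex.norm_le_of_forall_mem_frontier_norm_le (U := ball (0 : ℂ) r)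
    isBounded_ball (DifferentiableOn.diffContOnCl (by rw [hcl]; exact df)) ?_ ?_
  · intro w hw
    rw [hfr, mem_sphere_zero_iff_norm] at hw
    exact h w hw
  · rw [hcl]; simpa using hz

theorem clunie3 {H g : ℂ → ℂ} (dH : DifferentiableOn ℂ H (ball 0 1))
    (dg : DifferentiableOn ℂ g (ball 0 1)) (hH0 : H 0 = 1)
    (hH : ∀ z ∈ ball (0 : ℂ) 1, deriv H z = 2 * g z * H z)
    {C R r : ℝ} (hr : 0 < r) (hr1 : r < 1) (hR : 0 < R) (hCR : 2 * |C| < R)
    (h : ∀ z : ℂ, ‖z‖ = r → ‖z * g z - C‖ ≤ R) :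
    ‖co H 1‖ ^ 2 * r ^ 2 + 4 * ‖co H 2‖ ^ 2 * r ^ 4 + 9 * ‖co H 3‖ ^ 2 * r ^ 6
      ≤ (2 * (R ^ 2 - C ^ 2) / R) ^ 2
        + (2 * (R ^ 2 - C ^ 2) / R + C / R) ^ 2 * ‖co H 1‖ ^ 2 * r ^ 2
        + (2 * (R ^ 2 - C ^ 2) / R + 2 * (C / R)) ^ 2 * ‖co H 2‖ ^ 2 * r ^ 4 := by
  have hC0 : 0 ≤ |C| := abs_nonneg C
  have hCsq : C ^ 2 = |C| ^ 2 := (sq_abs C).symm
  set D : ℝ := R ^ 2 - C ^ 2 with hDdef
  have hD : 0 < D := by rw [hDdef, hCsq]; nlinarith
  have hsub : closedBall (0 : ℂ) r ⊆ ball 0 1 := closedBall_subset_ball hr1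
  have hsubb : ball (0 : ℂ) r ⊆ ball 0 1 := ball_subset_ball hr1.le
  have dgc : DifferentiableOn ℂ g (closedBall 0 r) := dg.mono hsub
  have hf : ∀ z : ℂ, ‖z‖ ≤ r → ‖z * g z - C‖ ≤ R := fun z hz =>
    max_disc hr (f := fun z => z * g z - C) ((differentiableOn_id.mul dgc).sub_const _) h hz
  have hden : ∀ z : ℂ, ‖z‖ ≤ r → ((D : ℝ) : ℂ) + C * (z * g z) ≠ 0 := by
    intro z hz h0
    have h1 : ‖z * g z‖ ≤ |C| + R := by
      have : z * g z = (z * g z - C) + C := by ring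
      rw [this]
      refine (norm_add_le _ _).trans ?_
      rw [Complex.norm_real, Real.norm_eq_abs]
      linarith [hf z hz]
    have h2 : ((D : ℝ) : ℂ) = -(C * (z * g z)) := eq_neg_of_add_eq_zero_left h0
    have h3 : D = |C| * ‖z * g z‖ := by
      have := congrArg norm h2
      rwa [norm_neg, norm_mul, Complex.norm_real, Complex.norm_real, Real.norm_of_nonneg hD.le,
        Real.norm_eq_abs] at this
    have h4 : |C| * ‖z * g z‖ ≤ |C| * (|C| + R) := mul_le_mul_of_nonneg_left h1 hC0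
    rw [hDdef, hCsq] at h3
    nlinarith
  set w : ℂ → ℂ := fun z => R * (z * g z) / (((D : ℝ) : ℂ) + C * (z * g z)) with hw
  have dw : DifferentiableOn ℂ w (closedBall 0 r) := by
    refine ((differentiableOn_id.mul dgc).const_mul _).div
      (((differentiableOn_id.mul dgc).const_mul _).const_add _) ?_
    intro z hz
    exact hden z (by simpa using hz)
  have hw1 : ∀ z : ℂ, ‖z‖ ≤ r → ‖w z‖ ≤ 1 := by
    intro z hz
    refine max_disc hr dw ?_ hz
    intro y hy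
    have h1 := disc_key C R (y * g y) hD.le (h y hy)
    have h2 : 0 < ‖((D : ℝ) : ℂ) + C * (y * g y)‖ := norm_pos_iff.2 (hden y hy.le)
    simp only [hw]
    rw [norm_div, norm_mul (R : ℂ), Complex.norm_real, Real.norm_of_nonneg hR.le, div_le_one h2]
    exact h1
  set α : ℝ := 2 * D / R with hα
  set p : ℝ := C / R with hp
  have hα0 : 0 < α := by positivity
  have hαc : ((α : ℝ) : ℂ) ≠ 0 := by exact_mod_cast hα0.ne'
  have hRc : ((R : ℝ) : ℂ) ≠ 0 := by exact_mod_cast hR.ne'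
  -- restrict to `ball 0 r`
  have dwb : DifferentiableOn ℂ w (ball 0 r) := dw.mono ball_subset_closedBall
  have dgb : DifferentiableOn ℂ g (ball 0 r) := dg.mono hsubb
  have dHb : DifferentiableOn ℂ H (ball 0 r) := dH.mono hsubb
  have dH' : DifferentiableOn ℂ (deriv H) (ball 0 r) := (dH.deriv isOpen_ball).mono hsubb
  set u : ℂ → ℂ := fun z => z * (2 * g z) with hu
  have du : DifferentiableOn ℂ u (ball 0 r) := differentiableOn_id.mul (dgb.const_mul 2)
  have eq1 : ∀ z ∈ ball (0 : ℂ) r, w z * (((α : ℝ) : ℂ) + p * u z) = u z := by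
    intro z hz
    have h1 := hden z (by simpa using (mem_ball_zero_iff.1 hz).le)
    simp only [hw, hu, hα, hp]
    push_cast
    have h2 : ((D : ℝ) : ℂ) + z * g z * C ≠ 0 := by rwa [mul_comm (z * g z) (C : ℂ)]
    field_simp
  have eq2 : ∀ z ∈ ball (0 : ℂ) r, z * deriv H z = u z * H z := by
    intro z hz
    rw [hH z (hsubb hz)]
    simp only [hu]
    ring
  -- coefficients
  have u0 : co u 0 = 0 := by rw [co_zero]; simp [hu]
  have w0 : co w 0 = 0 := by rw [co_zero]; simp [hw]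
  have h0 : co H 0 = 1 := by rw [co_zero, hH0]
  have cau : ∀ n, co (fun z => ((α : ℝ) : ℂ) + p * u z) n
      = (if n = 0 then ((α : ℝ) : ℂ) else 0) + p * co u n := by
    intro n
    rw [co_add (f := fun _ => ((α : ℝ) : ℂ)) (g := fun z => p * u z) hr
      (differentiableOn_const _) (du.const_mul _), co_const, co_const_mul]
  have dau : DifferentiableOn ℂ (fun z => ((α : ℝ) : ℂ) + p * u z) (ball 0 r) :=
    (du.const_mul _).const_add _
  have E1 : ∀ n, co u n = ∑ i ∈ Finset.range (n + 1), co w i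
      * ((if n - i = 0 then ((α : ℝ) : ℂ) else 0) + p * co u (n - i)) := by
    intro n
    have h1 := co_congr hr eq1 n
    rw [co_mul hr dwb dau] at h1
    rw [← h1]
    exact Finset.sum_congr rfl fun i _ => by rw [cau]
  have E2 : ∀ n : ℕ, ((n : ℂ) + 1) * co H (n + 1) = ∑ i ∈ Finset.range (n + 1 + 1), co u i
      * co H (n + 1 - i) := by
    intro n
    have h1 := co_congr hr eq2 (n + 1)
    rw [co_mul hr du dHb, co_id_mul hr dH', co_deriv] at h1
    exact h1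
  have a1 := E1 1
  have a2 := E1 2
  have a3 := E1 3
  have b1 := E2 0
  have b2 := E2 1
  have b3 := E2 2
  simp [Finset.sum_range_succ, u0, w0, h0] at a1 a2 a3 b1 b2 b3
  -- the truncated function
  set V : ℂ → ℂ := fun z => ((α : ℝ) : ℂ) + ((((α : ℝ) : ℂ) + p) * co H 1 * z
    + (((α : ℝ) : ℂ) + 2 * p) * co H 2 * z ^ 2) with hV
  have dV : DifferentiableOn ℂ V (ball 0 r) := by
    intro z _
    apply DifferentiableAt.differentiableWithinAt
    simp only [hV]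
    fun_prop
  have cV : ∀ n, co V n = (if n = 0 then ((α : ℝ) : ℂ) else 0)
      + ((((α : ℝ) : ℂ) + p) * co H 1 * (if n = 1 then 1 else 0)
        + (((α : ℝ) : ℂ) + 2 * p) * co H 2 * (if n = 2 then 1 else 0)) := by
    intro n
    simp only [hV]
    rw [co_add (f := fun _ => ((α : ℝ) : ℂ)) (g := fun z => (((α : ℝ) : ℂ) + p) * co H 1 * z
      + (((α : ℝ) : ℂ) + 2 * p) * co H 2 * z ^ 2) hr (differentiableOn_const _)
      (by intro z _; apply DifferentiableAt.differentiableWithinAt; fun_prop), co_const,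
      co_add (f := fun z => (((α : ℝ) : ℂ) + p) * co H 1 * z)
        (g := fun z => (((α : ℝ) : ℂ) + 2 * p) * co H 2 * z ^ 2) hr
        (by intro z _; apply DifferentiableAt.differentiableWithinAt; fun_prop)
        (by intro z _; apply DifferentiableAt.differentiableWithinAt; fun_prop),
      co_const_mul, co_const_mul, co_id, co_pow]
  have v0 : co V 0 = α := by rw [cV]; simp
  have v1 : co V 1 = (((α : ℝ) : ℂ) + p) * co H 1 := by rw [cV]; simp
  have v2 : co V 2 = (((α : ℝ) : ℂ) + 2 * p) * co H 2 := by rw [cV]; simp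
  have v3 : ∀ n, 3 ≤ n → co V n = 0 := by
    intro n hn
    rw [cV, if_neg (by omega), if_neg (by omega), if_neg (by omega)]
    simp
  set F : ℂ → ℂ := fun z => w z * V z with hF
  have dF : DifferentiableOn ℂ F (ball 0 r) := dwb.mul dV
  have cF : ∀ n, co F n = ∑ i ∈ Finset.range (n + 1), co w i * co V (n - i) := fun n =>
    co_mul hr dwb dV n
  have f1 := cF 1
  have f2 := cF 2
  have f3 := cF 3
  simp [Finset.sum_range_succ, w0, v0, v1, v2, v3 3 le_rfl] at f1 f2 f3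
  have g1 : co F 1 = co H 1 := by linear_combination f1 - a1 - b1
  have g2 : co F 2 = 2 * co H 2 := by
    linear_combination f2 - b2 - a2 - co H 1 * a1 + co w 1 * p * b1
  have g3 : co F 3 = 3 * co H 3 := by
    linear_combination f3 - b3 - a3 - co H 2 * a1 - co H 1 * a2 + co w 1 * p * b2
      + co w 2 * p * b1
  -- the inequality for `t < r`
  have hpt : ∀ t : ℝ, Continuous (fun x : ℝ => pt t x) := by
    intro t; unfold pt; fun_prop
  have hlt : ∀ t ∈ Ioo 0 r, ‖co H 1‖ ^ 2 * t ^ 2 + 4 * ‖co H 2‖ ^ 2 * t ^ 4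
      + 9 * ‖co H 3‖ ^ 2 * t ^ 6
      ≤ α ^ 2 + (α + p) ^ 2 * ‖co H 1‖ ^ 2 * t ^ 2 + (α + 2 * p) ^ 2 * ‖co H 2‖ ^ 2 * t ^ 4 := by
    intro t ht
    have hmem : ∀ x : ℝ, pt t x ∈ ball (0 : ℂ) r := fun x =>
      pt_mem_ball x ⟨by linarith [ht.1, ht.2], ht.2⟩
    have k1 := bessel_co dF ht 4
    have k2 : (mean fun x => ‖F (pt t x)‖ ^ 2) ≤ mean fun x => ‖V (pt t x)‖ ^ 2 := by
      apply mean_mono
      · exact (dF.continuousOn.comp_continuous (hpt t) hmem).norm.pow 2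
      · exact (dV.continuousOn.comp_continuous (hpt t) hmem).norm.pow 2
      · intro x
        have h1 := hw1 (pt t x) (mem_ball_zero_iff.1 (hmem x)).le
        simp only [hF]
        rw [norm_mul, mul_pow]
        have h2 : ‖w (pt t x)‖ ^ 2 ≤ 1 := pow_le_one₀ (norm_nonneg _) h1
        have h3 : 0 ≤ ‖V (pt t x)‖ ^ 2 := by positivity
        nlinarith
    have k3 := mean_poly dV v3 ht
    rw [k3] at k2
    have k4 := k1.trans k2
    simp only [Finset.sum_range_succ, Finset.sum_range_zero, g1, g2, g3, v0, v1, v2, norm_mul,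
      Complex.norm_real, Real.norm_of_nonneg hα0.le] at k4
    have e1 : ‖((α : ℝ) : ℂ) + p‖ ^ 2 = (α + p) ^ 2 := by
      rw [← Complex.ofReal_add, Complex.norm_real, Real.norm_eq_abs, sq_abs]
    have e2 : ‖((α : ℝ) : ℂ) + 2 * p‖ ^ 2 = (α + 2 * p) ^ 2 := by
      have : ((α : ℝ) : ℂ) + 2 * p = ((α + 2 * p : ℝ) : ℂ) := by push_cast; ring
      rw [this, Complex.norm_real, Real.norm_eq_abs, sq_abs]
    have e3 : ‖(2 : ℂ)‖ = 2 := by simp
    have e4 : ‖(3 : ℂ)‖ = 3 := by simp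
    rw [e3, e4] at k4
    rw [mul_pow ‖((α : ℝ) : ℂ) + p‖, mul_pow ‖((α : ℝ) : ℂ) + 2 * p‖, e1, e2] at k4
    have h5 : 0 ≤ ‖co F 0‖ ^ 2 := by positivity
    ring_nf at k4 h5 ⊢
    linarith
  -- the limit `t → r`
  refine le_of_tendsto_of_tendsto (b := 𝓝[<] r)
    (f := fun t => ‖co H 1‖ ^ 2 * t ^ 2 + 4 * ‖co H 2‖ ^ 2 * t ^ 4 + 9 * ‖co H 3‖ ^ 2 * t ^ 6)
    (g := fun t => α ^ 2 + (α + p) ^ 2 * ‖co H 1‖ ^ 2 * t ^ 2
      + (α + 2 * p) ^ 2 * ‖co H 2‖ ^ 2 * t ^ 4) ?_ ?_ ?_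
  · exact (by fun_prop : Continuous (fun t => ‖co H 1‖ ^ 2 * t ^ 2 + 4 * ‖co H 2‖ ^ 2 * t ^ 4
      + 9 * ‖co H 3‖ ^ 2 * t ^ 6)).continuousAt.continuousWithinAt
  · exact (by fun_prop : Continuous (fun t => α ^ 2 + (α + p) ^ 2 * ‖co H 1‖ ^ 2 * t ^ 2
      + (α + 2 * p) ^ 2 * ‖co H 2‖ ^ 2 * t ^ 4)).continuousAt.continuousWithinAt
  · filter_upwards [Ioo_mem_nhdsLT hr] with t ht using hlt t ht

end Pool.CSH4
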