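import Mathlib
import Pool.Agent.HU85.Pick

/-!
# The location of `E` on `|z| = 1/√18`
-/

set_option autoImplicit false

open Complex Metric Set Filter Topology
open scoped ComplexConjugate

namespace Pool.CSH4

theorem kappa_poly {s : ℝ} (h0 : 0 ≤ s) (h1 : s ≤ 23571 / 100000) :
    8 * (23571 / 100000) * (1 + s) ^ 4
      ≤ (17 / 18) * ((1 - s) * (3 * (1 + s) ^ 2 + (1 + 18 * s) ^ 2 / 18)) := by
  have h2 : 0 ≤ s ^ 2 := sq_nonneg s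
  have h3 : s ^ 2 ≤ (23571 / 100000) * s := by nlinarith
  have h4 : s ^ 3 ≤ (23571 / 100000) * s ^ 2 := by nlinarith
  have h5 : s ^ 4 ≤ (23571 / 100000) * s ^ 3 := by
    have : 0 ≤ s ^ 3 := by positivity
    nlinarith
  nlinarith

theorem kappa_key {r x b : ℝ} (hr : 0 < r) (hr2 : r ^ 2 = 1 / 18) (hx0 : 0 ≤ x) (hx1 : x ≤ 1)
    (hb0 : 0 ≤ b) (hb1 : b ≤ 1) (h : 17 * (b - x) ^ 2 ≤ (1 - b ^ 2) * (1 - x ^ 2)) :
    2 * r * (1 - x ^ 2) ≤ (1 - b ^ 2) * (1 - (1 - b ^ 2) / 4) * (1 - r * x) := by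
  have hr1 : r ≤ 23571 / 100000 := by
    by_contra hc
    push Not at hc
    nlinarith
  have hbx : 0 ≤ 1 - b * x := by nlinarith
  have hb' : b - x ≤ r * (1 - b * x) := by
    apply le_of_abs_le
    apply abs_le_of_sq_le_sq _ (mul_nonneg hr.le hbx)
    rw [mul_pow, hr2]
    nlinarith
  have hb2 : b * (1 + r * x) ≤ x + r := by nlinarith
  set P : ℝ := (1 + r * x) ^ 2 with hP
  have hP0 : 0 < P := by positivity
  have hPid : P - (x + r) ^ 2 = (17 / 18) * (1 - x ^ 2) := by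
    rw [hP]
    have : r ^ 2 * x ^ 2 = x ^ 2 / 18 := by rw [hr2]; ring
    nlinarith
  have hsq : b ^ 2 * P ≤ (x + r) ^ 2 := by
    have h1 : (b * (1 + r * x)) ^ 2 ≤ (x + r) ^ 2 := pow_le_pow_left₀ (by positivity) hb2 2
    rw [hP]
    nlinarith
  set d : ℝ := 1 - b ^ 2 with hd
  have hd1 : d ≤ 1 := by rw [hd]; nlinarith
  have hd0' : 0 ≤ d := by rw [hd]; nlinarith
  have hdP : (17 / 18) * (1 - x ^ 2) ≤ d * P := by rw [hd]; nlinarith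
  set d0 : ℝ := (17 / 18) * (1 - x ^ 2) / P with hd0
  have hx2 : 0 ≤ 1 - x ^ 2 := by nlinarith
  have h00 : 0 ≤ d0 := by positivity
  have h01 : d0 ≤ d := by rw [hd0, div_le_iff₀ hP0]; exact hdP
  have hd0P : d0 * P = (17 / 18) * (1 - x ^ 2) := by rw [hd0]; field_simp
  have hrx : 0 ≤ 1 - r * x := by nlinarith
  have hmono : d0 * (1 - d0 / 4) ≤ d * (1 - d / 4) := by nlinarith
  have hsuff : 2 * r * (1 - x ^ 2) ≤ d0 * (1 - d0 / 4) * (1 - r * x) := by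
    have hs := kappa_poly (s := r * x) (mul_nonneg hr.le hx0) (by nlinarith)
    have hxr : (1 + 18 * (r * x)) ^ 2 / 18 = (x + r) ^ 2 := by
      have e1 : (x + r) ^ 2 = r ^ 2 * (1 + 18 * (r * x)) ^ 2
          + (x * (1 - 18 * r ^ 2)) * (x * (1 + 18 * r ^ 2) + 2 * r) := by ring
      rw [e1, hr2]; ring
    rw [hxr, ← hP] at hs
    have hs2 : 8 * r * P ^ 2 ≤ (17 / 18) * ((1 - r * x) * (3 * P + (x + r) ^ 2)) := by
      refine le_trans ?_ hs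
      have e4 : (1 + r * x) ^ 4 = P ^ 2 := by rw [hP]; ring
      rw [e4]
      have : 0 ≤ P ^ 2 := sq_nonneg P
      nlinarith
    have e5 : 3 * P + (x + r) ^ 2 = P * (4 - d0) := by nlinarith
    rw [e5] at hs2
    have hs3 : 8 * r * P ≤ (17 / 18) * ((1 - r * x) * (4 - d0)) := by
      have : P * (8 * r * P) ≤ P * ((17 / 18) * ((1 - r * x) * (4 - d0))) := by nlinarith
      exact le_of_mul_le_mul_left this hP0
    have hs4 : 8 * r * P * (1 - x ^ 2) ≤ (17 / 18) * ((1 - r * x) * (4 - d0)) * (1 - x ^ 2) :=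
      mul_le_mul_of_nonneg_right hs3 hx2
    have e6 : (17 / 18) * ((1 - r * x) * (4 - d0)) * (1 - x ^ 2)
        = P * (d0 * (4 - d0) * (1 - r * x)) := by
      calc (17 / 18) * ((1 - r * x) * (4 - d0)) * (1 - x ^ 2)
          = ((17 / 18) * (1 - x ^ 2)) * ((4 - d0) * (1 - r * x)) := by ring
        _ = (d0 * P) * ((4 - d0) * (1 - r * x)) := by rw [hd0P]
        _ = _ := by ring
    rw [e6] at hs4
    have : P * (8 * r * (1 - x ^ 2)) ≤ P * (d0 * (4 - d0) * (1 - r * x)) := by nlinarith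
    have := le_of_mul_le_mul_left this hP0
    nlinarith
  refine hsuff.trans ?_
  exact mul_le_mul_of_nonneg_right hmono hrx

theorem E_upper {r x : ℝ} (hr : 0 < r) (hr2 : r ^ 2 = 1 / 18) (hx0 : 0 ≤ x) (hx1 : x ≤ 1) :
    (x ^ 2 + (18 / 17) * r * (x * (1 - x ^ 2))) / (18 - x ^ 2) ≤ 1 / 17 := by
  have h1 : 0 < 18 - x ^ 2 := by nlinarith
  rw [div_le_iff₀ h1]
  have hr1 : r ≤ 1 := by nlinarith
  have h2 : 0 ≤ (1 - x ^ 2) * (1 - r * x) := mul_nonneg (by nlinarith) (by nlinarith)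
  nlinarith

theorem E_lower {r x b ν : ℝ} (hr : 0 < r) (hr2 : r ^ 2 = 1 / 18) (hx0 : 0 ≤ x) (hx1 : x ≤ 1)
    (hb0 : 0 ≤ b) (hb1 : b ≤ 1) (h : 17 * (b - x) ^ 2 ≤ (1 - b ^ 2) * (1 - x ^ 2))
    (hν : 8 * ν = (1 - b ^ 2) * (1 - (1 - b ^ 2) / 4)) :
    (1 - 72 * r * ν) / 17 ≤ (x ^ 2 - (18 / 17) * r * (x * (1 - x ^ 2))) / (18 - x ^ 2) := by
  have h1 : 0 < 18 - x ^ 2 := by nlinarith
  rw [le_div_iff₀ h1]
  have hk := kappa_key hr hr2 hx0 hx1 hb0 hb1 h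
  rw [← hν] at hk
  have hx : 0 ≤ r * x := mul_nonneg hr.le hx0
  -- `(1 - x²) ≤ 72 r ν (1 - r x)`
  have hk2 : 1 - x ^ 2 ≤ 72 * r * ν * (1 - r * x) := by
    have h3 := mul_le_mul_of_nonneg_left hk (by positivity : 0 ≤ 9 * r)
    have e3 : 9 * r * (2 * r * (1 - x ^ 2)) = 18 * r ^ 2 * (1 - x ^ 2) := by ring
    rw [e3, hr2] at h3
    nlinarith
  have hk3 := mul_le_mul_of_nonneg_right hk2 (by linarith : 0 ≤ 1 + r * x)
  have e4 : 72 * r * ν * (1 - r * x) * (1 + r * x) = 72 * r * ν * (1 - r ^ 2 * x ^ 2) := by ring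
  rw [e4, hr2] at hk3
  nlinarith

/-- location of `E` on `|z| = r`, `r² = 1/18` -/
theorem E_mem {r b ν : ℝ} {c d : ℂ} (hr : 0 < r) (hr2 : r ^ 2 = 1 / 18) (hb0 : 0 ≤ b)
    (hb1 : b ≤ 1) (hc : ‖c‖ ≤ 1) (hd : ‖d‖ ≤ (18 / 17) * r * (1 - ‖c‖ ^ 2))
    (h : 17 * (b - ‖c‖) ^ 2 ≤ (1 - b ^ 2) * (1 - ‖c‖ ^ 2))
    (hν : 8 * ν = (1 - b ^ 2) * (1 - (1 - b ^ 2) / 4)) :
    ‖(((‖c‖ : ℝ) : ℂ) ^ 2 + d * conj c) / (18 - ((‖c‖ : ℝ) : ℂ) ^ 2)
      - (((1 - 36 * r * ν) / 17 : ℝ) : ℂ)‖ ≤ 36 * r * ν / 17 := by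
  set x := ‖c‖ with hx
  have hx0 : 0 ≤ x := norm_nonneg _
  have h1 : 0 < 18 - x ^ 2 := by nlinarith
  have h1c : (18 - ((x : ℝ) : ℂ) ^ 2) ≠ 0 := by
    have : (18 - ((x : ℝ) : ℂ) ^ 2) = ((18 - x ^ 2 : ℝ) : ℂ) := by push_cast; ring
    rw [this]; exact_mod_cast h1.ne'
  have e1 : (((x : ℝ) : ℂ) ^ 2 + d * conj c) / (18 - ((x : ℝ) : ℂ) ^ 2)
      - (((1 - 36 * r * ν) / 17 : ℝ) : ℂ)
      = ((x ^ 2 / (18 - x ^ 2) - (1 - 36 * r * ν) / 17 : ℝ) : ℂ)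
        + (d * conj c) / ((18 - x ^ 2 : ℝ) : ℂ) := by
    push_cast
    rw [add_div]
    ring
  rw [e1]
  refine (norm_add_le _ _).trans ?_
  rw [Complex.norm_real, norm_div, norm_mul, Complex.norm_conj, Complex.norm_real,
    Real.norm_of_nonneg h1.le, ← hx, Real.norm_eq_abs]
  have h2 : ‖d‖ * x / (18 - x ^ 2) ≤ ((18 / 17) * r * (x * (1 - x ^ 2))) / (18 - x ^ 2) := by
    apply div_le_div_of_nonneg_right _ h1.le
    have := mul_le_mul_of_nonneg_right hd hx0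
    linarith
  have h3 := E_upper hr hr2 hx0 hc
  have h4 := E_lower hr hr2 hx0 hc hb0 hb1 h hν
  rw [add_div] at h3
  rw [sub_div (x ^ 2)] at h4
  have h5 : |x ^ 2 / (18 - x ^ 2) - (1 - 36 * r * ν) / 17|
      ≤ 36 * r * ν / 17 - ((18 / 17) * r * (x * (1 - x ^ 2))) / (18 - x ^ 2) := by
    rw [abs_le]
    constructor <;> linarith
  linarith

end Pool.CSH4
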