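import Mathlib

/-!
# The real inequalities behind the fourth coefficient
-/

set_option autoImplicit false

namespace Pool.CSH4

theorem r_bounds {r : ℝ} (hr : 0 < r) (hr2 : r ^ 2 = 1 / 18) :
    2357 / 10000 ≤ r ∧ r ≤ 23571 / 100000 := by
  constructor
  · by_contra hc
    push Not at hc
    nlinarith
  · by_contra hc
    push Not at hc
    nlinarith

/-- from the Clunie inequality to the variables `κ, π` -/
theorem clunie_vars {r ν C R κ π α p X1 X2 X3 : ℝ} (hr : 0 < r) (hr2 : r ^ 2 = 1 / 18)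
    (hν : 0 ≤ ν) (hC : C = (2 - 36 * r * ν) / 17) (hR : R = 36 * r * (1 + ν) / 17)
    (hκ : κ * (1 + ν) = 1 + (36 / 17) * (1 + r) * ν) (hπ : π * (1 + ν) = 1 - 18 * r * ν)
    (hα : α = 2 * (R ^ 2 - C ^ 2) / R) (hp : p = C / R)
    (h : X1 * r ^ 2 + 4 * X2 * r ^ 4 + 9 * X3 * r ^ 6
      ≤ α ^ 2 + (α + p) ^ 2 * X1 * r ^ 2 + (α + 2 * p) ^ 2 * X2 * r ^ 4) :
    X3 + (8 - (4 / 9) * (2 * κ + π) ^ 2) * X2
      ≤ 576 * κ ^ 2 + (2 * (4 * κ + π) ^ 2 - 36) * X1 := by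
  have h1ν : 0 < 1 + ν := by linarith
  have hR0 : 0 < R := by rw [hR]; positivity
  have hp' : p = r * π := by
    rw [hp, div_eq_iff hR0.ne', hC, hR]
    have e1 : r * π * (36 * r * (1 + ν) / 17) = (36 / 17) * r ^ 2 * (π * (1 + ν)) := by ring
    rw [e1, hπ, hr2]
    ring
  have hα' : α = 4 * r * κ := by
    rw [hα, div_eq_iff hR0.ne', hC, hR]
    have e1 : 4 * r * κ * (36 * r * (1 + ν) / 17) = (144 / 17) * r ^ 2 * (κ * (1 + ν)) := by ring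
    rw [e1, hκ]
    have e2 : 2 * ((36 * r * (1 + ν) / 17) ^ 2 - ((2 - 36 * r * ν) / 17) ^ 2)
        = (2 / 289) * (1296 * r ^ 2 * (1 + 2 * ν) - 4 + 144 * r * ν) := by ring
    rw [e2, hr2]
    ring
  have r4 : r ^ 4 = 1 / 324 := by
    have : r ^ 4 = (r ^ 2) ^ 2 := by ring
    rw [this, hr2]; norm_num
  have r6 : r ^ 6 = 1 / 5832 := by
    have : r ^ 6 = (r ^ 2) ^ 3 := by ring
    rw [this, hr2]; norm_num
  have e1 : α ^ 2 = (8 / 9) * κ ^ 2 := by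
    have : α ^ 2 = 16 * r ^ 2 * κ ^ 2 := by rw [hα']; ring
    rw [this, hr2]; ring
  have e2 : (α + p) ^ 2 = (1 / 18) * (4 * κ + π) ^ 2 := by
    have : (α + p) ^ 2 = r ^ 2 * (4 * κ + π) ^ 2 := by rw [hα', hp']; ring
    rw [this, hr2]
  have e3 : (α + 2 * p) ^ 2 = (2 / 9) * (2 * κ + π) ^ 2 := by
    have : (α + 2 * p) ^ 2 = 4 * r ^ 2 * (2 * κ + π) ^ 2 := by rw [hα', hp']; ring
    rw [this, hr2]; ring
  rw [e1, e2, e3, hr2, r4, r6] at h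
  linarith

theorem poly1 {ν : ℝ} (h0 : 0 ≤ ν) (h1 : ν ≤ 1) :
    576 * (1 + (26168 / 10000) * ν) ^ 2 + 32 * (5 + (622451 / 100000) * ν) ^ 2
        ≤ (1376 + (22544 / 10) * ν - 700 * ν ^ 2) * (1 + ν) ^ 2 := by
  have h2 : 0 ≤ ν ^ 2 := sq_nonneg _
  have h3 : 0 ≤ ν ^ 3 := by positivity
  have h4 : ν ^ 4 ≤ ν ^ 3 := pow_le_pow_of_le_one h0 h1 (by norm_num)
  ring_nf
  linarith

theorem poly2 {ν : ℝ} (h0 : 0 ≤ ν) :
    (3 + (99096 / 100000) * ν) ^ 2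
        ≤ (9 - (12054 / 1000) * ν + (161 / 10) * ν ^ 2) * (1 + ν) ^ 2 := by
  have h2 : 0 ≤ ν ^ 2 := sq_nonneg _
  have h3 : 0 ≤ ν ^ 3 := by positivity
  have h4 : 0 ≤ ν ^ 4 := by positivity
  ring_nf
  linarith

theorem poly3 {d : ℝ} (h0 : 0 ≤ d) :
    10 - (11295 / 1000) * d + (17846 / 10000) * d ^ 2 - (1368 / 10000) * d ^ 3
        ≤ 10 - (17 / 4) * d - d ^ 2 / 4 - (5636 / 100) * (d / 8 - d ^ 2 / 32)
          + (175 / 10) * (d / 8 - d ^ 2 / 32) ^ 2 := by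
  have h2 : 0 ≤ d ^ 2 := sq_nonneg _
  have h3 : 0 ≤ d ^ 3 := by positivity
  have h4 : 0 ≤ d ^ 4 := by positivity
  ring_nf
  linarith

theorem poly4 {d : ℝ} (h0 : 0 ≤ d) (h1 : d ≤ 1) :
    9 + (15067 / 10000) * d - (6283 / 10000) * d ^ 2
      ≤ 9 + (12054 / 1000) * (d / 8 - d ^ 2 / 32) - (161 / 10) * (d / 8 - d ^ 2 / 32) ^ 2 := by
  have h2 : 0 ≤ d ^ 2 := sq_nonneg _
  have h3 : 0 ≤ d ^ 3 := by positivity
  have h4 : d ^ 4 ≤ d ^ 3 := pow_le_pow_of_le_one h0 h1 (by norm_num)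
  ring_nf
  linarith

theorem poly5 {d : ℝ} (h0 : 0 ≤ d) (h1 : d ≤ 1) :
    0 ≤ 10 - (11295 / 1000) * d + (17846 / 10000) * d ^ 2 - (1368 / 10000) * d ^ 3 := by
  have h3 : d ^ 3 ≤ d ^ 2 := pow_le_pow_of_le_one h0 h1 (by norm_num)
  nlinarith

theorem poly6 {d : ℝ} (h0 : 0 ≤ d) (h1 : d ≤ 1) :
    90 * (1 - d) ≤ (10 - (11295 / 1000) * d + (17846 / 10000) * d ^ 2
        - (1368 / 10000) * d ^ 3) * (9 + (15067 / 10000) * d - (6283 / 10000) * d ^ 2) := by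
  have g0 : 0 ≤ 3406 / 1000 - (7237 / 1000) * d + (853 / 100) * d ^ 2
      - (1328 / 1000) * d ^ 3 := by
    have h3 : d ^ 3 ≤ d ^ 2 := pow_le_pow_of_le_one h0 h1 (by norm_num)
    nlinarith [sq_nonneg (d - 1 / 2)]
  have g1 := mul_nonneg h0 g0
  have h5 : 0 ≤ d ^ 5 := by positivity
  have h4 : 0 ≤ d ^ 4 := by positivity
  have h2 : 0 ≤ d ^ 2 := by positivity
  have h3 : 0 ≤ d ^ 3 := by positivity
  ring_nf at g1 ⊢
  linarith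

theorem poly7 {ν : ℝ} (h0 : 0 ≤ ν) (h1 : ν ≤ 3 / 32) :
    0 < 9 + (12054 / 1000) * ν - (161 / 10) * ν ^ 2 := by nlinarith

theorem poly8 {d : ℝ} (h0 : 0 ≤ d) (h1 : d ≤ 1) :
    0 ≤ 9 + (15067 / 10000) * d - (6283 / 10000) * d ^ 2 := by nlinarith

theorem last_ineq {d ν : ℝ} (hd0 : 0 ≤ d) (hd1 : d ≤ 1) (hν : ν = d / 8 - d ^ 2 / 32)
    (hW0 : 0 < 9 + (12054 / 1000) * ν - (161 / 10) * ν ^ 2) :
    90 * (1 - d) / (9 + (12054 / 1000) * ν - (161 / 10) * ν ^ 2)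
      ≤ 10 - (17 / 4) * d - d ^ 2 / 4 - (5636 / 100) * ν + (175 / 10) * ν ^ 2 := by
  rw [div_le_iff₀ hW0, hν]
  exact (poly6 hd0 hd1).trans (mul_le_mul (poly3 hd0) (poly4 hd0 hd1) (poly8 hd0 hd1)
    ((poly5 hd0 hd1).trans (poly3 hd0)))

theorem S1_bound {r ν κ m : ℝ} (rb : r ≤ 23571 / 100000) (hr : 0 ≤ r) (ra : 2357 / 10000 ≤ r)
    (hν0 : 0 ≤ ν) (hν1 : ν ≤ 1) (hκ : κ * (1 + ν) = 1 + (36 / 17) * (1 + r) * ν)
    (hmν : m * (1 + ν) = 5 + (144 / 17 - (162 / 17) * r) * ν) :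
    576 * κ ^ 2 + 32 * m ^ 2 - 576 ≤ 800 + (22544 / 10) * ν - 700 * ν ^ 2 := by
  have hP : 0 < (1 + ν) ^ 2 := by positivity
  have k1 : (κ * (1 + ν)) ^ 2 ≤ (1 + (26168 / 10000) * ν) ^ 2 := by
    rw [hκ]
    apply pow_le_pow_left₀ (by positivity)
    have : (36 / 17) * (1 + r) * ν ≤ (26168 / 10000) * ν :=
      mul_le_mul_of_nonneg_right (by linarith) hν0
    linarith
  have k2 : (m * (1 + ν)) ^ 2 ≤ (5 + (622451 / 100000) * ν) ^ 2 := by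
    rw [hmν]
    have h1 : (144 / 17 - (162 / 17) * r) * ν ≤ (622451 / 100000) * ν :=
      mul_le_mul_of_nonneg_right (by linarith) hν0
    have h2 : 0 ≤ (144 / 17 - (162 / 17) * r) * ν := mul_nonneg (by linarith) hν0
    apply pow_le_pow_left₀ (by linarith)
    linarith
  have k3 := poly1 hν0 hν1
  rw [mul_pow] at k1 k2
  have k4 : (576 * κ ^ 2 + 32 * m ^ 2) * (1 + ν) ^ 2
      ≤ (1376 + (22544 / 10) * ν - 700 * ν ^ 2) * (1 + ν) ^ 2 := by linarith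
  have k5 := le_of_mul_le_mul_right k4 hP
  linarith

theorem W_bound {r ν q : ℝ} (rb : r ≤ 23571 / 100000) (ra : 2357 / 10000 ≤ r)
    (hν0 : 0 ≤ ν) (hqν : q * (1 + ν) = 3 + (72 / 17 - (234 / 17) * r) * ν) :
    9 + (12054 / 1000) * ν - (161 / 10) * ν ^ 2 ≤ 18 - q ^ 2 := by
  have hP : 0 < (1 + ν) ^ 2 := by positivity
  have k1 : (q * (1 + ν)) ^ 2 ≤ (3 + (99096 / 100000) * ν) ^ 2 := by
    rw [hqν]
    have h1 : (72 / 17 - (234 / 17) * r) * ν ≤ (99096 / 100000) * ν :=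
      mul_le_mul_of_nonneg_right (by linarith) hν0
    have h2 : 0 ≤ (72 / 17 - (234 / 17) * r) * ν := mul_nonneg (by linarith) hν0
    apply pow_le_pow_left₀ (by linarith)
    linarith
  have k2 := poly2 hν0
  rw [mul_pow] at k1
  have k5 := le_of_mul_le_mul_right (k1.trans k2) hP
  linarith

theorem amgm {A b y2 : ℝ} (hA0 : 0 < A) :
    2 * b * y2 ≤ A * y2 ^ 2 / 40 + 40 * b ^ 2 / A := by
  have e1 : A * y2 ^ 2 / 40 + 40 * b ^ 2 / A - 2 * b * y2 = (A * y2 - 40 * b) ^ 2 / (40 * A) := by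
    field_simp
    ring
  have : 0 ≤ (A * y2 - 40 * b) ^ 2 / (40 * A) := by positivity
  linarith

theorem real_core {r d ν κ π b y1 y2 y3 : ℝ} (hr : 0 < r) (hr2 : r ^ 2 = 1 / 18)
    (hd0 : 0 ≤ d) (hd1 : d ≤ 1) (hν : 8 * ν = d * (1 - d / 4)) (hb : b ^ 2 = 1 - d)
    (hκ : κ * (1 + ν) = 1 + (36 / 17) * (1 + r) * ν) (hπ : π * (1 + ν) = 1 - 18 * r * ν)
    (hy1 : y1 ^ 2 ≤ 16)
    (h : y3 ^ 2 + (8 - (4 / 9) * (2 * κ + π) ^ 2) * y2 ^ 2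
      ≤ 576 * κ ^ 2 + (2 * (4 * κ + π) ^ 2 - 36) * y1 ^ 2) :
    y3 + 2 * b * y2 ≤ 40 - (17 / 4) * d - d ^ 2 / 4 := by
  obtain ⟨ra, rb⟩ := r_bounds hr hr2
  have hν' : ν = d / 8 - d ^ 2 / 32 := by linarith
  have hν0 : 0 ≤ ν := by
    have : 0 ≤ d * (1 - d / 4) := mul_nonneg hd0 (by linarith)
    linarith
  have hν1 : ν ≤ 3 / 32 := by
    have : 0 ≤ (1 - d) * (3 - d) := mul_nonneg (by linarith) (by linarith)
    nlinarith only [this, hν]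
  have h1ν : 0 < 1 + ν := by linarith
  have hmν : (4 * κ + π) * (1 + ν) = 5 + (144 / 17 - (162 / 17) * r) * ν := by linarith
  have hqν : (2 * κ + π) * (1 + ν) = 3 + (72 / 17 - (234 / 17) * r) * ν := by linarith
  have hS1 := S1_bound rb hr.le ra hν0 (by linarith) hκ hmν
  have hW := W_bound rb ra hν0 hqν
  have hW0 := poly7 hν0 hν1
  have hlast := last_ineq hd0 hd1 hν' hW0
  -- lower bound of `m`
  have hm5 : 5 * (1 + ν) ≤ (4 * κ + π) * (1 + ν) := by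
    rw [hmν]
    have : 5 * ν ≤ (144 / 17 - (162 / 17) * r) * ν :=
      mul_le_mul_of_nonneg_right (by linarith) hν0
    linarith
  have hm5' : 5 ≤ 4 * κ + π := le_of_mul_le_mul_right hm5 h1ν
  have hm2 : 0 ≤ 2 * (4 * κ + π) ^ 2 - 36 := by
    have : (5 : ℝ) ^ 2 ≤ (4 * κ + π) ^ 2 := pow_le_pow_left₀ (by norm_num) hm5' 2
    linarith
  obtain ⟨W, hWdef⟩ : ∃ W : ℝ, W = 9 + (12054 / 1000) * ν - (161 / 10) * ν ^ 2 := ⟨_, rfl⟩
  obtain ⟨A, hA⟩ : ∃ A : ℝ, A = 8 - (4 / 9) * (2 * κ + π) ^ 2 := ⟨_, rfl⟩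
  rw [← hWdef] at hW hW0 hlast
  rw [← hA] at h
  have hAW : (4 / 9) * W ≤ A := by rw [hA]; linarith
  have hA0 : 0 < A := by linarith
  -- AM-GM
  have hy3 : y3 ≤ y3 ^ 2 / 40 + 10 := by nlinarith only [sq_nonneg (y3 - 20)]
  have hy2 := amgm (b := b) (y2 := y2) hA0
  have hb' : 40 * b ^ 2 / A ≤ 90 * (1 - d) / W := by
    rw [hb, div_le_div_iff₀ hA0 hW0]
    have h1 : 0 ≤ 1 - d := by linarith
    have h2 := mul_le_mul_of_nonneg_left hAW h1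
    linarith
  have hsum : y3 ^ 2 + A * y2 ^ 2 ≤ 576 * κ ^ 2 + 32 * (4 * κ + π) ^ 2 - 576 := by
    have : (2 * (4 * κ + π) ^ 2 - 36) * y1 ^ 2 ≤ (2 * (4 * κ + π) ^ 2 - 36) * 16 :=
      mul_le_mul_of_nonneg_left hy1 hm2
    linarith
  linarith

end Pool.CSH4
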