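import Mathlib
import Pool.Agent.CSH4.Coef
import Pool.Agent.HU85.Pick

/-!
# Two steps of the Schur algorithm

The first three Taylor coefficients of a holomorphic `χ` with `|χ| ≤ 1`, and the bound of the part
of the fourth coefficient that does not involve `h_2, h_3`.
-/

set_option autoImplicit false

open Complex Metric Set Filter Topology
open scoped ComplexConjugate

namespace Pool.CSH4

open Pool.Agent.HS85 Pool.Agent.HU85

theorem mul_conj_sq' (c : ℂ) : c * conj c = ((‖c‖ ^ 2 : ℝ) : ℂ) := by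
  rw [Complex.mul_conj, Complex.normSq_eq_norm_sq]

theorem schur2 {χ : ℂ → ℂ} (dχ : DifferentiableOn ℂ χ (ball 0 1))
    (hχ : ∀ z ∈ ball (0 : ℂ) 1, ‖χ z‖ ≤ 1) :
    ∃ s : ℂ, ‖s‖ ≤ 1 ∧ co χ 1 = ((1 - ‖χ 0‖ ^ 2 : ℝ) : ℂ) * s ∧
      ‖co χ 2 + conj (χ 0) * co χ 1 * s‖ ≤ (1 - ‖χ 0‖ ^ 2) * (1 - ‖s‖ ^ 2) := by
  have h0b : (0 : ℂ) ∈ ball (0 : ℂ) 1 := by simp
  rcases lt_or_eq_of_le (hχ 0 h0b) with hlt | heq
  · set c := χ 0 with hc
    set ψ : ℂ → ℂ := fun z => (χ z - c) / (1 - conj c * χ z) with hψ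
    have hne : ∀ z ∈ ball (0 : ℂ) 1, 1 - conj c * χ z ≠ 0 := fun z hz => one_sub_ne hlt (hχ z hz)
    have dψ : DifferentiableOn ℂ ψ (ball 0 1) :=
      (dχ.sub_const _).div ((dχ.const_mul _).const_sub _) hne
    have hψ0 : ψ 0 = 0 := by simp [hψ, ← hc]
    have hψ1 : ∀ z ∈ ball (0 : ℂ) 1, ‖ψ z‖ ≤ 1 := fun z hz => moeb_le hlt (hχ z hz)
    set σ : ℂ → ℂ := dslope ψ 0 with hσ
    have dσ : DifferentiableOn ℂ σ (ball 0 1) :=
      (Complex.differentiableOn_dslope (isOpen_ball.mem_nhds h0b)).2 dψ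
    have hmul : ∀ z, ψ z = z * σ z := by
      intro z
      have h2 := sub_smul_dslope ψ 0 z
      rw [hψ0, sub_zero, sub_zero, smul_eq_mul] at h2
      exact h2.symm
    have hmaps : MapsTo ψ (ball 0 1) (closedBall (ψ 0) 1) := by
      intro x hx
      rw [hψ0, mem_closedBall_zero_iff]
      exact hψ1 x hx
    have hσ1 : ∀ z ∈ ball (0 : ℂ) 1, ‖σ z‖ ≤ 1 := by
      intro z hz
      have h := norm_dslope_le_div_of_mapsTo_ball dψ hmaps hz
      rwa [div_one] at h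
    have heq1 : ∀ z ∈ ball (0 : ℂ) 1, χ z * (1 + conj c * (z * σ z)) = z * σ z + c := by
      intro z hz
      rw [← hmul z]
      have h2 : ψ z * (1 - conj c * χ z) = χ z - c := div_mul_cancel₀ _ (hne z hz)
      linear_combination (-1) * h2
    have dz : DifferentiableOn ℂ (fun z => z * σ z) (ball 0 1) := differentiableOn_id.mul dσ
    have dk : DifferentiableOn ℂ (fun z => 1 + conj c * (z * σ z)) (ball 0 1) :=
      (dz.const_mul _).const_add _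
    have one_pos' : (0 : ℝ) < 1 := one_pos
    have ck : ∀ n, co (fun z => 1 + conj c * (z * σ z)) n
        = (if n = 0 then 1 else 0) + conj c * co (fun z => z * σ z) n := by
      intro n
      rw [co_add (f := fun _ => (1 : ℂ)) (g := fun z => conj c * (z * σ z)) one_pos'
        (differentiableOn_const _) (dz.const_mul _), co_const, co_const_mul]
    have cr : ∀ n, co (fun z => z * σ z + c) n
        = co (fun z => z * σ z) n + (if n = 0 then c else 0) := by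
      intro n
      rw [co_add (f := fun z => z * σ z) (g := fun _ => c) one_pos' dz
        (differentiableOn_const _), co_const]
    have z0 : co (fun z => z * σ z) 0 = 0 := by rw [co_zero]; simp
    have z1 : co (fun z => z * σ z) 1 = co σ 0 := co_id_mul one_pos' dσ 0
    have z2 : co (fun z => z * σ z) 2 = co σ 1 := co_id_mul one_pos' dσ 1
    have c0 : co χ 0 = c := by rw [co_zero]
    have e1 := co_congr one_pos' heq1 1
    have e2 := co_congr one_pos' heq1 2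
    rw [co_mul one_pos' dχ dk, cr] at e1 e2
    simp [Finset.sum_range_succ, ck, z0, z1, z2, c0] at e1 e2
    have hcc := mul_conj_sq' c
    have s0 : co σ 0 = σ 0 := co_zero σ
    have s1 : co σ 1 = deriv σ 0 := by unfold co; simp
    refine ⟨co σ 0, ?_, ?_, ?_⟩
    · rw [s0]; exact hσ1 0 h0b
    · push_cast at hcc ⊢
      linear_combination e1 - co σ 0 * hcc
    · have h1 : co χ 2 + conj c * co χ 1 * co σ 0 = ((1 - ‖c‖ ^ 2 : ℝ) : ℂ) * co σ 1 := by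
        push_cast at hcc ⊢
        linear_combination e2 - co σ 1 * hcc
      rw [h1, norm_mul, Complex.norm_real, Real.norm_of_nonneg (by nlinarith [norm_nonneg c]), s0, s1]
      have h2 := schwarz_pick dσ hσ1 (z := 0) (by simp)
      have h3 : ‖deriv σ 0‖ ≤ 1 - ‖σ 0‖ ^ 2 := by simpa using h2
      exact mul_le_mul_of_nonneg_left h3 (by nlinarith [norm_nonneg c])
  · have hmax : IsMaxOn (norm ∘ χ) (ball 0 1) 0 := by
      intro x hx
      simp only [Function.comp_apply, mem_ofPred_eq]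
      rw [heq]; exact hχ x hx
    have hconst := Complex.eqOn_of_isPreconnected_of_isMaxOn_norm
      (convex_ball (0:ℂ) 1).isPreconnected isOpen_ball dχ h0b hmax
    have h1 : ∀ n, n ≠ 0 → co χ n = 0 := by
      intro n hn
      rw [co_congr (g := fun _ => χ 0) one_pos (fun z hz => hconst hz) n, co_const, if_neg hn]
    refine ⟨0, by simp, ?_, ?_⟩
    · rw [h1 1 (by norm_num), heq]; simp
    · rw [h1 1 (by norm_num), h1 2 (by norm_num), heq]; simp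

/-- the part of the fourth coefficient that does not involve `h_2, h_3` -/
theorem low_part {χ0 χ1 χ2 h1 s : ℂ} (hχ0 : ‖χ0‖ ≤ 1) (hs : ‖s‖ ≤ 1)
    (h1' : χ1 = ((1 - ‖χ0‖ ^ 2 : ℝ) : ℂ) * s)
    (h2' : ‖χ2 + conj χ0 * χ1 * s‖ ≤ (1 - ‖χ0‖ ^ 2) * (1 - ‖s‖ ^ 2)) (hh : ‖h1‖ ≤ 4) :
    ‖(χ0 ^ 2 - 2 * χ1) * h1 - 2 * χ2 + 2 * χ0 * χ1‖
      ≤ (4 + (1 - ‖χ0‖ ^ 2) / 4) * (1 + (1 - ‖χ0‖ ^ 2)) := by
  set d : ℝ := 1 - ‖χ0‖ ^ 2 with hd
  have hd0 : 0 ≤ d := by rw [hd]; nlinarith [norm_nonneg χ0]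
  have hd1 : d ≤ 1 := by rw [hd]; nlinarith [norm_nonneg χ0]
  set X : ℝ := ‖χ0 ^ 2 - 2 * χ1‖ with hX
  set Y : ℝ := ‖χ0 + conj χ0 * s‖ with hY
  set τ : ℝ := 1 - ‖s‖ ^ 2 with hτ
  have hτ0 : 0 ≤ τ := by rw [hτ]; nlinarith [norm_nonneg s]
  have hτ1 : τ ≤ 1 := by rw [hτ]; nlinarith [norm_nonneg s]
  have hX0 : 0 ≤ X := norm_nonneg _
  have hY0 : 0 ≤ Y := norm_nonneg _
  have hs0 : 0 ≤ ‖s‖ := norm_nonneg _
  have hn : ‖χ0‖ ^ 2 = 1 - d := by rw [hd]; ring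
  have hsn : ‖s‖ ^ 2 = 1 - τ := by rw [hτ]; ring
  -- the identity
  have hid : X ^ 2 + 2 * d * Y ^ 2 = (1 + d) ^ 2 - 2 * d * (1 + d) * τ := by
    have q1 : X ^ 2 = ‖χ0‖ ^ 4 - 4 * d * (χ0 ^ 2 * conj s).re + 4 * d ^ 2 * ‖s‖ ^ 2 := by
      have e4 : ‖χ0‖ ^ 4 = (‖χ0‖ ^ 2) ^ 2 := by ring
      rw [hX, h1', e4, Complex.sq_norm, Complex.sq_norm, Complex.sq_norm, normSq_apply,
        normSq_apply, normSq_apply]
      simp [pow_two]
      ring
    have q2 : Y ^ 2 = ‖χ0‖ ^ 2 + 2 * (χ0 ^ 2 * conj s).re + ‖χ0‖ ^ 2 * ‖s‖ ^ 2 := by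
      rw [hY, Complex.sq_norm, Complex.sq_norm, Complex.sq_norm, normSq_apply,
        normSq_apply, normSq_apply]
      simp [pow_two]
      ring
    have q3 : ‖χ0‖ ^ 4 = (1 - d) ^ 2 := by rw [← hn]; ring
    rw [q1, q2, q3, hn, hsn]
    ring
  -- triangle inequality
  have t1 : ‖(χ0 ^ 2 - 2 * χ1) * h1 - 2 * χ2 + 2 * χ0 * χ1‖
      ≤ 4 * X + 2 * d * ‖s‖ * Y + 2 * d * τ := by
    have e1 : (χ0 ^ 2 - 2 * χ1) * h1 - 2 * χ2 + 2 * χ0 * χ1
        = (χ0 ^ 2 - 2 * χ1) * h1 + 2 * χ1 * (χ0 + conj χ0 * s)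
          - 2 * (χ2 + conj χ0 * χ1 * s) := by ring
    rw [e1]
    refine (norm_sub_le _ _).trans (add_le_add ((norm_add_le _ _).trans (add_le_add ?_ ?_)) ?_)
    · rw [norm_mul, ← hX]; nlinarith
    · rw [norm_mul, norm_mul, ← hY, h1', norm_mul, Complex.norm_real, Real.norm_of_nonneg hd0]
      apply le_of_eq
      have e2 : ‖(2 : ℂ)‖ = 2 := by simp
      rw [e2]
      ring
    · rw [norm_mul]
      have : ‖(2 : ℂ)‖ = 2 := by simp
      rw [this]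
      linarith
  refine t1.trans ?_
  have hN0 : 0 ≤ (4 + d / 4) * (1 + d) - 2 * d * τ := by nlinarith
  have hkey : (4 * X + 2 * d * ‖s‖ * Y) ^ 2 ≤ ((4 + d / 4) * (1 + d) - 2 * d * τ) ^ 2 := by
    have c1 : (4 * X + 2 * d * ‖s‖ * Y) ^ 2 ≤ (16 + 2 * d * ‖s‖ ^ 2) * (X ^ 2 + 2 * d * Y ^ 2) := by
      have : 0 ≤ 2 * d * (4 * Y - ‖s‖ * X) ^ 2 := by positivity
      nlinarith
    refine c1.trans ?_
    rw [hid, hsn]
    have c2 : ((4 + d / 4) * (1 + d) - 2 * d * τ) ^ 2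
        - (16 + 2 * d * (1 - τ)) * ((1 + d) ^ 2 - 2 * d * (1 + d) * τ)
        = (d ^ 2 / 16) * (1 + d) ^ 2 + d * τ * (18 + 23 * d + 5 * d ^ 2 - 4 * d ^ 2 * τ) := by ring
    have c3 : 0 ≤ 18 + 23 * d + 5 * d ^ 2 - 4 * d ^ 2 * τ := by
      nlinarith [mul_nonneg (sq_nonneg d) (sub_nonneg.2 hτ1)]
    have c4 : 0 ≤ d * τ * (18 + 23 * d + 5 * d ^ 2 - 4 * d ^ 2 * τ) := by positivity
    have c5 : 0 ≤ (d ^ 2 / 16) * (1 + d) ^ 2 := by positivity
    linarith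
  have h3 := (sq_le_sq₀ (by positivity) hN0).1 hkey
  linarith

end Pool.CSH4
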