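import Mathlib
import Pool.Agent.CSH3.Third

/-!
# The variables `χ, g` of a surface with `|Psi| ≤ 2`
-/

set_option autoImplicit false

open Complex Metric Set Filter Topology
open scoped ComplexConjugate

namespace Pool.CSH4

open Pool.Agent.HU85 Pool.CSH3

theorem setup {L R : ℂ → ℂ} (dL : DifferentiableOn ℂ L (ball 0 1))
    (dR : DifferentiableOn ℂ R (ball 0 1)) (hL : ∀ z ∈ ball (0 : ℂ) 1, deriv L z ≠ 0)
    (hR : ∀ z ∈ ball (0 : ℂ) 1, 0 < (R z).im)
    (hPsi : ∀ z ∈ ball (0 : ℂ) 1, ‖Pool.CSH.Psi L R z‖ ≤ 2) :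
    ∃ χ g : ℂ → ℂ, DifferentiableOn ℂ χ (ball 0 1) ∧ DifferentiableOn ℂ g (ball 0 1) ∧
      (∀ z ∈ ball (0 : ℂ) 1, ‖χ z‖ ≤ 1) ∧ (∀ z ∈ ball (0 : ℂ) 1, 1 - z * χ z ≠ 0) ∧
      (∀ z ∈ ball (0 : ℂ) 1, deriv (deriv L) z
        = 2 * deriv L z * (g z - (χ z + z * deriv χ z) / (1 - z * χ z))) ∧
      (∀ z ∈ ball (0 : ℂ) 1, ‖((1 - ‖z‖ ^ 2 : ℝ) : ℂ)
        * (g z - conj (z * χ z) * (χ z + z * deriv χ z) / (1 - z * χ z * conj (z * χ z)))
          - conj z‖ ≤ 2) := by
  have h0b : (0 : ℂ) ∈ ball (0 : ℂ) 1 := by simp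
  have h0 : 0 < (R 0).im := hR 0 h0b
  have hden : ∀ z ∈ ball (0 : ℂ) 1, R z - conj (R 0) ≠ 0 := by
    intro z hz h
    have := congrArg Complex.im h
    simp at this
    have h2 := hR z hz
    linarith
  set B : ℂ → ℂ := fun z => (R z - R 0) / (R z - conj (R 0)) with hB
  have hBd : DifferentiableOn ℂ B (ball 0 1) :=
    (dR.sub_const _).div (dR.sub_const _) hden
  have hB0 : B 0 = 0 := by simp [hB]
  have hB1 : ∀ z ∈ ball (0 : ℂ) 1, ‖B z‖ < 1 := by
    intro z hz
    rw [hB]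
    simp only [norm_div]
    rw [div_lt_one (norm_pos_iff.2 (hden z hz))]
    have h1 : ‖R z - R 0‖ ^ 2 < ‖R z - conj (R 0)‖ ^ 2 := by
      rw [← Complex.normSq_eq_norm_sq, ← Complex.normSq_eq_norm_sq]
      simp only [Complex.normSq_apply]
      simp
      nlinarith [hR z hz]
    exact lt_of_pow_lt_pow_left₀ 2 (norm_nonneg _) h1
  set χ : ℂ → ℂ := dslope B 0 with hχdef
  have dχ : DifferentiableOn ℂ χ (ball 0 1) :=
    (Complex.differentiableOn_dslope (isOpen_ball.mem_nhds h0b)).2 hBd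
  have hBχ : B = fun z => z * χ z := by
    funext z
    have h2 := sub_smul_dslope B 0 z
    rw [hB0, sub_zero, sub_zero, smul_eq_mul] at h2
    exact h2.symm
  have hmaps : MapsTo B (ball 0 1) (closedBall (B 0) 1) := by
    intro x hx
    rw [hB0, mem_closedBall_zero_iff]
    exact (hB1 x hx).le
  have hχ1 : ∀ z ∈ ball (0 : ℂ) 1, ‖χ z‖ ≤ 1 := by
    intro z hz
    have h := norm_dslope_le_div_of_mapsTo_ball hBd hmaps hz
    rwa [div_one] at h
  -- the two formulas for `B'`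
  have hw : R 0 - conj (R 0) ≠ 0 := hden 0 h0b
  have hB' : ∀ z ∈ ball (0 : ℂ) 1,
      χ z + z * deriv χ z = deriv R z * (R 0 - conj (R 0)) / (R z - conj (R 0)) ^ 2 := by
    intro z hz
    have h1 : HasDerivAt B (1 * χ z + z * deriv χ z) z := by
      rw [hBχ]
      exact (hasDerivAt_id z).mul (hasDerivAt_of dχ hz)
    have h2 : HasDerivAt B ((deriv R z * (R z - conj (R 0)) - (R z - R 0) * deriv R z)
        / (R z - conj (R 0)) ^ 2) z :=
      ((hasDerivAt_of dR hz).sub_const _).div ((hasDerivAt_of dR hz).sub_const _) (hden z hz)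
    have h3 := h1.unique h2
    rw [one_mul] at h3
    rw [h3]
    congr 1
    ring
  have h1B : ∀ z ∈ ball (0 : ℂ) 1, 1 - z * χ z = (R 0 - conj (R 0)) / (R z - conj (R 0)) := by
    intro z hz
    have h1 : z * χ z = B z := by rw [hBχ]
    rw [h1, hB]
    have := hden z hz
    field_simp
    ring
  -- the function `g`
  set g : ℂ → ℂ := fun z => deriv (deriv L) z / (2 * deriv L z)
    + deriv R z / (R z - conj (R 0)) with hg
  have dL1 : DifferentiableOn ℂ (deriv L) (ball 0 1) := dL.deriv isOpen_ball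
  have dL2 : DifferentiableOn ℂ (deriv (deriv L)) (ball 0 1) := dL1.deriv isOpen_ball
  have dR1 : DifferentiableOn ℂ (deriv R) (ball 0 1) := dR.deriv isOpen_ball
  have dg : DifferentiableOn ℂ g (ball 0 1) :=
    (dL2.div (dL1.const_mul 2) (fun z hz => mul_ne_zero two_ne_zero (hL z hz))).add
      (dR1.div (dR.sub_const _) hden)
  -- `Psi` in the new variables
  have hpsi : ∀ z ∈ ball (0 : ℂ) 1, Pool.CSH.Psi L R z = ((1 - ‖z‖ ^ 2 : ℝ) : ℂ)
      * (g z - conj (B z) * (χ z + z * deriv χ z) / (1 - B z * conj (B z))) - conj z := by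
    intro z hz
    have hRz : 0 < (R z).im := hR z hz
    have e1 : 2 * I * (((R z).im : ℝ) : ℂ) = R z - conj (R z) := by
      apply Complex.ext <;> simp
      ring
    have e2 : conj (B z) = (conj (R z) - conj (R 0)) / (conj (R z) - R 0) := by
      rw [hB]; simp
    have e3 : B z = (R z - R 0) / (R z - conj (R 0)) := by rw [hB]
    have n1 := hden z hz
    have n2 : conj (R z) - R 0 ≠ 0 := by
      intro h
      have := congrArg Complex.im h
      simp at this
      linarith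
    have n3 : R z - conj (R z) ≠ 0 := by
      intro h
      have := congrArg Complex.im h
      simp at this
      linarith
    rw [Pool.CSH.Psi, e1, hB' z hz, e2, e3, psi_alg n1 n2 n3 hw]
  have hSχ : ∀ z ∈ ball (0 : ℂ) 1, deriv R z / (R z - conj (R 0))
      = (χ z + z * deriv χ z) / (1 - z * χ z) := by
    intro z hz
    have n1 := hden z hz
    rw [hB' z hz, h1B z hz]
    field_simp
  refine ⟨χ, g, dχ, dg, hχ1, ?_, ?_, ?_⟩
  · intro z hz
    rw [h1B z hz]
    exact div_ne_zero hw (hden z hz)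
  · intro z hz
    rw [← hSχ z hz, hg]
    have := hL z hz
    field_simp
    ring
  · intro z hz
    have h1 := hPsi z hz
    rw [hpsi z hz] at h1
    have h2 : B z = z * χ z := by rw [hBχ]
    rw [h2] at h1
    exact h1

end Pool.CSH4
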