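import Mathlib
import Pool.Agent.CSH4.Setup
import Pool.Agent.CSH4.Clunie
import Pool.Agent.CSH4.Schur2
import Pool.Agent.CSH4.Kappa
import Pool.Agent.CSH4.Real

/-!
# The sharp fourth coefficient theorem

For a surface `(L, R)` on the unit disc with `Im R > 0`, `L' ≠ 0` and `|Psi| ≤ 2`, the fourth
Taylor coefficient of `L` is at most `11` times the first one.
-/

set_option autoImplicit false

open Complex Metric Set Filter Topology
open scoped ComplexConjugate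

namespace Pool.CSH4

open Pool.Agent.HU85 Pool.Agent.HS85

/-- `z g(z)` on the circle `|z| = r`, `r² = 1/18` -/
theorem circle_disc {χ g : ℂ → ℂ} (dχ : DifferentiableOn ℂ χ (ball 0 1))
    (hχ : ∀ z ∈ ball (0 : ℂ) 1, ‖χ z‖ ≤ 1)
    (hpsi : ∀ z ∈ ball (0 : ℂ) 1, ‖((1 - ‖z‖ ^ 2 : ℝ) : ℂ)
        * (g z - conj (z * χ z) * (χ z + z * deriv χ z) / (1 - z * χ z * conj (z * χ z)))
          - conj z‖ ≤ 2)
    {r ν : ℝ} (hr : 0 < r) (hr2 : r ^ 2 = 1 / 18)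
    (hν : 8 * ν = (1 - ‖χ 0‖ ^ 2) * (1 - (1 - ‖χ 0‖ ^ 2) / 4)) {z : ℂ} (hz : ‖z‖ = r) :
    ‖z * g z - (((2 - 36 * r * ν) / 17 : ℝ) : ℂ)‖ ≤ 36 * r * (1 + ν) / 17 := by
  have h0b : (0 : ℂ) ∈ ball (0 : ℂ) 1 := by simp
  have hr1 : r < 1 := by nlinarith
  have hz1 : ‖z‖ < 1 := by rw [hz]; exact hr1
  have hzb : z ∈ ball (0 : ℂ) 1 := by simpa using hz1
  have h1 := hpsi z hzb
  have hzz : z * conj z = 1 / 18 := by
    rw [Complex.mul_conj, Complex.normSq_eq_norm_sq, hz, hr2]; norm_num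
  have hcc : ((‖χ z‖ : ℝ) : ℂ) ^ 2 = χ z * conj (χ z) := by
    rw [Complex.mul_conj, Complex.normSq_eq_norm_sq]; push_cast; ring
  have hx : ‖χ z‖ ≤ 1 := hχ z hzb
  have hne : (18 : ℂ) - χ z * conj (χ z) ≠ 0 := by
    rw [← hcc]
    have : (18 - ((‖χ z‖ : ℝ) : ℂ) ^ 2) = ((18 - ‖χ z‖ ^ 2 : ℝ) : ℂ) := by push_cast; ring
    rw [this]
    have h5 : 0 < 18 - ‖χ z‖ ^ 2 := by nlinarith [norm_nonneg (χ z)]
    exact_mod_cast h5.ne'
  set Ψ : ℂ := ((1 - ‖z‖ ^ 2 : ℝ) : ℂ)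
        * (g z - conj (z * χ z) * (χ z + z * deriv χ z) / (1 - z * χ z * conj (z * χ z)))
          - conj z with hΨ
  have hkey : z * g z - (1 / 17 + (((‖χ z‖ : ℝ) : ℂ) ^ 2
      + z * deriv χ z * conj (χ z)) / (18 - ((‖χ z‖ : ℝ) : ℂ) ^ 2))
        = (18 / 17) * z * Ψ := by
    rw [hΨ, hcc, hz, hr2, map_mul]
    have hq : z * (conj z * conj (χ z) * (χ z + z * deriv χ z)
          / (1 - z * χ z * (conj z * conj (χ z))))
        = (χ z * conj (χ z) + z * deriv χ z * conj (χ z)) / (18 - χ z * conj (χ z)) := by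
      have hne' : 1 - z * χ z * (conj z * conj (χ z)) ≠ 0 := by
        have : 1 - z * χ z * (conj z * conj (χ z)) = (18 - χ z * conj (χ z)) / 18 := by
          linear_combination (-(χ z * conj (χ z))) * hzz
        rw [this]
        exact div_ne_zero hne (by norm_num)
      rw [← mul_div_assoc, div_eq_div_iff hne' hne]
      linear_combination ((conj (χ z) * (χ z + z * deriv χ z)) * (18 - χ z * conj (χ z))
        + (χ z * conj (χ z) + z * deriv χ z * conj (χ z)) * (χ z * conj (χ z))) * hzz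
    rw [← hq]
    push_cast
    linear_combination (18 / 17) * hzz
  have hh : ‖z * g z - (1 / 17 + (((‖χ z‖ : ℝ) : ℂ) ^ 2
      + z * deriv χ z * conj (χ z)) / (18 - ((‖χ z‖ : ℝ) : ℂ) ^ 2))‖ ≤ 36 * r / 17 := by
    rw [hkey, norm_mul, norm_mul, hz]
    have h18 : ‖(18 / 17 : ℂ)‖ = 18 / 17 := by
      rw [norm_div]; simp
    rw [h18]
    have := mul_le_mul_of_nonneg_left h1 (by positivity : 0 ≤ 18 / 17 * r)
    linarith
  have hE : ‖(((‖χ z‖ : ℝ) : ℂ) ^ 2 + z * deriv χ z * conj (χ z)) / (18 - ((‖χ z‖ : ℝ) : ℂ) ^ 2)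
      - (((1 - 36 * r * ν) / 17 : ℝ) : ℂ)‖ ≤ 36 * r * ν / 17 := by
    refine E_mem (b := ‖χ 0‖) hr hr2 (norm_nonneg _) (hχ 0 h0b) hx ?_ ?_ hν
    · have h2 := schwarz_pick dχ hχ hz1
      rw [hz, hr2] at h2
      rw [norm_mul, hz]
      have h3 := mul_le_mul_of_nonneg_left h2 (by positivity : 0 ≤ 18 / 17 * r)
      linarith
    · have h2 := schwarz_pick_zero dχ hχ hz1
      rw [hz] at h2
      have h3 := pick_identity (χ 0) (χ z)
      have h4 : ‖χ z - χ 0‖ ^ 2 ≤ (1 / 18) * ‖1 - conj (χ 0) * χ z‖ ^ 2 := by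
        have := pow_le_pow_left₀ (norm_nonneg _) h2 2
        rwa [mul_pow, hr2] at this
      have h5 : (‖χ 0‖ - ‖χ z‖) ^ 2 ≤ ‖χ z - χ 0‖ ^ 2 := by
        have h5 := abs_norm_sub_norm_le (χ z) (χ 0)
        have h6 : |‖χ z‖ - ‖χ 0‖| ^ 2 ≤ ‖χ z - χ 0‖ ^ 2 :=
          pow_le_pow_left₀ (abs_nonneg _) h5 2
        rw [sq_abs] at h6
        nlinarith
      linarith
  set E : ℂ := (((‖χ z‖ : ℝ) : ℂ) ^ 2
    + z * deriv χ z * conj (χ z)) / (18 - ((‖χ z‖ : ℝ) : ℂ) ^ 2) with hEd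
  have h3 : z * g z - (((2 - 36 * r * ν) / 17 : ℝ) : ℂ) = (z * g z - (1 / 17 + E))
      + (E - (((1 - 36 * r * ν) / 17 : ℝ) : ℂ)) := by
    push_cast; ring
  rw [h3]
  refine (norm_add_le _ _).trans ?_
  have : 36 * r * (1 + ν) / 17 = 36 * r / 17 + 36 * r * ν / 17 := by ring
  rw [this]
  exact add_le_add hh hE

theorem H_alg {L1 l0 g S k : ℂ} (hl : l0 ≠ 0) (hk : k ≠ 0) :
    (2 * L1 * (g - S / k) * (l0 * (k * k)) - L1 * (l0 * (-S * k + k * -S))) / (l0 * (k * k)) ^ 2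
      = 2 * g * (L1 / (l0 * (k * k))) := by
  field_simp
  ring

/-- **Fourth coefficient from `|Psi| ≤ 2`.** -/
theorem fourth_of_psi {L R : ℂ → ℂ} (dL : DifferentiableOn ℂ L (ball 0 1))
    (dR : DifferentiableOn ℂ R (ball 0 1)) (hL : ∀ z ∈ ball (0 : ℂ) 1, deriv L z ≠ 0)
    (hR : ∀ z ∈ ball (0 : ℂ) 1, 0 < (R z).im)
    (hPsi : ∀ z ∈ ball (0 : ℂ) 1, ‖Pool.CSH.Psi L R z‖ ≤ 2) :
    ‖iteratedDeriv 4 L 0‖ ≤ 264 * ‖deriv L 0‖ := by
  obtain ⟨χ, g, dχ, dg, hχ, hne, hL2, hpsi⟩ := setup dL dR hL hR hPsi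
  have h0b : (0 : ℂ) ∈ ball (0 : ℂ) 1 := by simp
  have one_pos' : (0 : ℝ) < 1 := one_pos
  -- the number `r`
  obtain ⟨r, hr, hr2⟩ : ∃ r : ℝ, 0 < r ∧ r ^ 2 = 1 / 18 :=
    ⟨Real.sqrt (1 / 18), Real.sqrt_pos.2 (by norm_num), Real.sq_sqrt (by norm_num)⟩
  obtain ⟨ra, rb⟩ := r_bounds hr hr2
  set b : ℝ := ‖χ 0‖ with hb
  have hb0 : 0 ≤ b := norm_nonneg _
  have hb1 : b ≤ 1 := hχ 0 h0b
  obtain ⟨d, hd⟩ : ∃ d : ℝ, d = 1 - b ^ 2 := ⟨_, rfl⟩
  have hd0 : 0 ≤ d := by rw [hd]; nlinarith only [hb0, hb1]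
  have hd1 : d ≤ 1 := by rw [hd]; nlinarith only [hb0, hb1]
  obtain ⟨ν, hν⟩ : ∃ ν : ℝ, 8 * ν = d * (1 - d / 4) := ⟨d * (1 - d / 4) / 8, by ring⟩
  have hν0 : 0 ≤ ν := by
    have : 0 ≤ d * (1 - d / 4) := mul_nonneg hd0 (by linarith)
    linarith
  have hν1 : ν ≤ 3 / 32 := by
    have : 0 ≤ (1 - d) * (3 - d) := mul_nonneg (by linarith) (by linarith)
    nlinarith only [this, hν]
  have hcirc : ∀ z : ℂ, ‖z‖ = r →
      ‖z * g z - (((2 - 36 * r * ν) / 17 : ℝ) : ℂ)‖ ≤ 36 * r * (1 + ν) / 17 := fun z hz =>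
    circle_disc dχ hχ hpsi hr hr2 (by rw [hν, hd]) hz
  -- `|g(0)| ≤ 2`
  have hg0 : ‖g 0‖ ≤ 2 := by
    have h1 := hpsi 0 h0b
    simpa using h1
  -- the function `H`
  have hL0 : deriv L 0 ≠ 0 := hL 0 h0b
  have dL1 : DifferentiableOn ℂ (deriv L) (ball 0 1) := dL.deriv isOpen_ball
  have dk : DifferentiableOn ℂ (fun z => 1 - z * χ z) (ball 0 1) :=
    (differentiableOn_id.mul dχ).const_sub 1
  have dQ : DifferentiableOn ℂ (fun z => (1 - z * χ z) * (1 - z * χ z)) (ball 0 1) := dk.mul dk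
  have hQne : ∀ z ∈ ball (0 : ℂ) 1, deriv L 0 * ((1 - z * χ z) * (1 - z * χ z)) ≠ 0 :=
    fun z hz => mul_ne_zero hL0 (mul_ne_zero (hne z hz) (hne z hz))
  set H : ℂ → ℂ := fun z => deriv L z / (deriv L 0 * ((1 - z * χ z) * (1 - z * χ z))) with hH
  have dH : DifferentiableOn ℂ H (ball 0 1) := dL1.div (dQ.const_mul _) hQne
  have hH0 : H 0 = 1 := by
    simp only [hH]
    simp [hL0]
  have hH' : ∀ z ∈ ball (0 : ℂ) 1, deriv H z = 2 * g z * H z := by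
    intro z hz
    have hk : HasDerivAt (fun z => 1 - z * χ z) (-(χ z + z * deriv χ z)) z := by
      have h0 : HasDerivAt (fun z => 1 - z * χ z) (-(1 * χ z + z * deriv χ z)) z :=
        ((hasDerivAt_id z).mul (hasDerivAt_of dχ hz)).const_sub 1
      rwa [one_mul] at h0
    have h1 := (hasDerivAt_of dL1 hz).div ((hk.mul hk).const_mul (deriv L 0)) (hQne z hz)
    have h2 : deriv H z = _ := h1.deriv
    rw [h2, hL2 z hz]
    exact H_alg hL0 (hne z hz)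
  -- coefficients
  have hLH : ∀ z ∈ ball (0 : ℂ) 1,
      deriv L z = deriv L 0 * (H z * ((1 - z * χ z) * (1 - z * χ z))) := by
    intro z hz
    simp only [hH]
    have n1 := hne z hz
    field_simp
  have ck : ∀ n, co (fun z => 1 - z * χ z) n
      = (if n = 0 then 1 else 0) - co (fun z => z * χ z) n := by
    intro n
    rw [co_sub (f := fun _ => (1 : ℂ)) (g := fun z => z * χ z) one_pos'
      (differentiableOn_const _) (differentiableOn_id.mul dχ), co_const]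
  have z0 : co (fun z => z * χ z) 0 = 0 := by rw [co_zero]; simp
  have z1 : co (fun z => z * χ z) 1 = co χ 0 := co_id_mul one_pos' dχ 0
  have z2 : co (fun z => z * χ z) 2 = co χ 1 := co_id_mul one_pos' dχ 1
  have z3 : co (fun z => z * χ z) 3 = co χ 2 := co_id_mul one_pos' dχ 2
  have k0 : co (fun z => 1 - z * χ z) 0 = 1 := by rw [ck, z0]; simp
  have k1 : co (fun z => 1 - z * χ z) 1 = -co χ 0 := by rw [ck, z1]; simp
  have k2 : co (fun z => 1 - z * χ z) 2 = -co χ 1 := by rw [ck, z2]; simp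
  have k3 : co (fun z => 1 - z * χ z) 3 = -co χ 2 := by rw [ck, z3]; simp
  have Q0 : co (fun z => (1 - z * χ z) * (1 - z * χ z)) 0 = 1 := by
    rw [co_mul one_pos' dk dk]; simp [Finset.sum_range_succ, k0]
  have Q1 : co (fun z => (1 - z * χ z) * (1 - z * χ z)) 1 = -(2 * co χ 0) := by
    rw [co_mul one_pos' dk dk]; simp [Finset.sum_range_succ, k0, k1]; ring
  have Q2 : co (fun z => (1 - z * χ z) * (1 - z * χ z)) 2 = co χ 0 ^ 2 - 2 * co χ 1 := by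
    rw [co_mul one_pos' dk dk]; simp [Finset.sum_range_succ, k0, k1, k2]; ring
  have Q3 : co (fun z => (1 - z * χ z) * (1 - z * χ z)) 3
      = -(2 * co χ 2) + 2 * co χ 0 * co χ 1 := by
    rw [co_mul one_pos' dk dk]; simp [Finset.sum_range_succ, k0, k1, k2, k3]; ring
  have hc0 : co χ 0 = χ 0 := co_zero χ
  have hHc0 : co H 0 = 1 := by rw [co_zero, hH0]
  have hco : co (deriv L) 3 = deriv L 0 * (co H 3 - 2 * χ 0 * co H 2
      + ((χ 0 ^ 2 - 2 * co χ 1) * co H 1 - 2 * co χ 2 + 2 * χ 0 * co χ 1)) := by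
    rw [co_congr one_pos' hLH 3, co_const_mul, co_mul one_pos' dH dQ]
    simp only [Finset.sum_range_succ, Finset.sum_range_zero, Nat.sub_zero, Nat.sub_self, Q0, Q1,
      Q2, Q3, hHc0, hc0]
    ring
  have hderiv : iteratedDeriv 4 L 0 = 6 * co (deriv L) 3 := by
    have h4 : iteratedDeriv 4 L = iteratedDeriv 3 (deriv L) := iteratedDeriv_succ'
    unfold co
    rw [h4]
    norm_num [Nat.factorial]
    ring
  -- Schur
  obtain ⟨s, hs, hs1, hs2⟩ := schur2 dχ hχ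
  have hH1 : co H 1 = 2 * g 0 := by
    have : co H 1 = deriv H 0 := by unfold co; simp
    rw [this, hH' 0 h0b, hH0, mul_one]
  have hH1n : ‖co H 1‖ ≤ 4 := by
    rw [hH1, norm_mul]
    have : ‖(2 : ℂ)‖ = 2 := by simp
    rw [this]; linarith
  have hlow := low_part hb1 hs hs1 hs2 hH1n
  rw [← hb, ← hd] at hlow
  -- Clunie
  obtain ⟨C, hC⟩ : ∃ C : ℝ, C = (2 - 36 * r * ν) / 17 := ⟨_, rfl⟩
  obtain ⟨ρ, hρ⟩ : ∃ ρ : ℝ, ρ = 36 * r * (1 + ν) / 17 := ⟨_, rfl⟩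
  rw [← hC, ← hρ] at hcirc
  have hrν0 : 0 ≤ r * ν := mul_nonneg hr.le hν0
  have hρ0 : 0 < ρ := by rw [hρ]; positivity
  have hCρ : 2 * |C| < ρ := by
    have hrν1 : r * ν ≤ r := by nlinarith only [hr, hν1]
    have : |C| < ρ / 2 := by
      rw [abs_lt, hC, hρ]
      constructor <;> linarith
    linarith
  have hcl := clunie3 dH dg hH0 hH' hr (by linarith) hρ0 hCρ hcirc
  have h1ν : (1 + ν) ≠ 0 := by linarith
  obtain ⟨κ, hκ⟩ : ∃ κ : ℝ, κ * (1 + ν) = 1 + (36 / 17) * (1 + r) * ν :=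
    ⟨(1 + (36 / 17) * (1 + r) * ν) / (1 + ν), div_mul_cancel₀ _ h1ν⟩
  obtain ⟨π, hπ⟩ : ∃ π : ℝ, π * (1 + ν) = 1 - 18 * r * ν :=
    ⟨(1 - 18 * r * ν) / (1 + ν), div_mul_cancel₀ _ h1ν⟩
  have hv := clunie_vars hr hr2 hν0 hC hρ hκ hπ rfl rfl hcl
  have hy1 : ‖co H 1‖ ^ 2 ≤ 16 := by
    have := pow_le_pow_left₀ (norm_nonneg _) hH1n 2
    linarith
  have hreal := real_core (b := b) hr hr2 hd0 hd1 hν (by rw [hd]; ring) hκ hπ hy1 hv
  -- conclusion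
  rw [hderiv, hco, norm_mul, norm_mul]
  have h6 : ‖(6 : ℂ)‖ = 6 := by simp
  rw [h6]
  have hfin : ‖co H 3 - 2 * χ 0 * co H 2
      + ((χ 0 ^ 2 - 2 * co χ 1) * co H 1 - 2 * co χ 2 + 2 * χ 0 * co χ 1)‖ ≤ 44 := by
    refine (norm_add_le _ _).trans ?_
    have h1 : ‖co H 3 - 2 * χ 0 * co H 2‖ ≤ ‖co H 3‖ + 2 * b * ‖co H 2‖ := by
      refine (norm_sub_le _ _).trans ?_
      rw [norm_mul, norm_mul, ← hb]
      have : ‖(2 : ℂ)‖ = 2 := by simp
      rw [this]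
    have h2 : 40 - (17 / 4) * d - d ^ 2 / 4 + (4 + d / 4) * (1 + d) = 44 := by ring
    linarith
  have := mul_le_mul_of_nonneg_left hfin (norm_nonneg (deriv L 0))
  linarith

end Pool.CSH4
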