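import Mathlib
import Pool.Agent.CSH4.Fourth
import Pool.Agent.CSH.FinN
import Pool.Agent.CSH.Final

/-!
# Sharp fourth coefficient in `S_H`: assembly
-/

set_option autoImplicit false

open Complex Metric Set
open scoped ComplexConjugate Nat

namespace Pool.CSH4

theorem polyBound4 : Pool.Agent.CSH.PolyBoundN 4 11 := by
  intro r p q hr _ _ hlt hinj
  obtain ⟨L, F, G, R, hA, hc⟩ := Pool.CSH.lift_exists (h := p) (g := q) (r := r)
    ⟨hr, hinj, hlt⟩ 3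
  have hS : Pool.CSH.Surf (ball 0 1) L F G R :=
    ⟨hA.dL, hA.dF, hA.dG, hA.dR, hA.hF, hA.hG, hA.hR, hA.hL⟩
  have hK : Pool.CSH.Achr (ball 0 1) L F G := fun x hx y hy hxy => hA.hK x hx y hy hxy
  have h1 := fourth_of_psi hA.dL hA.dR hA.hL hA.hR (Pool.CSH.psi_le_two hS hK)
  have c4 := hc 3 le_rfl
  have c1 := hc 0 (by norm_num)
  rw [zero_add, iteratedDeriv_one] at c1
  have c4' : iteratedDeriv 4 L 0 = 24 * (p - q).coeff 4 := by
    have e1 : (((3 + 1) ! : ℕ) : ℂ) = 24 := by norm_num [Nat.factorial]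
    rw [e1] at c4
    simpa using c4
  rw [c4', c1] at h1
  have e2 : (((1 : ℕ) ! : ℕ) : ℂ) = 1 := by norm_num
  rw [e2, one_mul, norm_mul, Polynomial.coeff_sub, Polynomial.coeff_sub] at h1
  have h24 : ‖(24 : ℂ)‖ = 24 := by simp
  rw [h24] at h1
  linarith

/-- **Sharp fourth coefficient theorem** for univalent harmonic maps. -/
theorem fourth_coeff (h g : ℂ → ℂ) (dh : DifferentiableOn ℂ h (ball (0 : ℂ) 1))
    (dg : DifferentiableOn ℂ g (ball (0 : ℂ) 1)) (h1 : deriv h 0 = 1)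
    (hlt : ∀ z ∈ ball (0 : ℂ) 1, ‖deriv g z‖ < ‖deriv h z‖)
    (hinj : InjOn (fun z => h z + conj (g z)) (ball (0 : ℂ) 1)) :
    ‖iteratedDeriv 4 h 0‖ / 24 ≤ 11 ∧
    ‖iteratedDeriv 4 g 0‖ / 24 ≤ 11 ∧
    ∀ ε : ℂ, ‖ε‖ = 1 → ‖iteratedDeriv 4 h 0 + ε * iteratedDeriv 4 g 0‖ / 24
      ≤ 11 * ‖1 + ε * deriv g 0‖ := by
  have := Pool.Agent.CSH.final_of_polyBoundN (by norm_num) polyBound4 h g dh dg h1 hlt hinj
  have e : ((4 ! : ℕ) : ℝ) = 24 := by norm_num [Nat.factorial]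
  rw [e] at this
  exact this

end Pool.CSH4
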